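import Mathlib

set_option autoImplicit false

open Matrix

namespace Pool.Agent.W564.Cox

/-- The Coxeter matrix of the free product of three groups of order two. -/
def M : CoxeterMatrix (Fin 3) where
  M := fun i j => if i = j then 1 else 0
  isSymm := by
    ext i j
    simp [Matrix.transpose, eq_comm]
  diagonal i := by simp
  off_diagonal i j h := by simp [h]

/-- The three half-turns, as integer matrices. -/
def Hm (b : Fin 3) : Matrix (Fin 3) (Fin 3) ℤ :=
  match b with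
  | 0 => !![-1, 0, 0; 2, 0, 1; 2, 1, 0]
  | 1 => !![0, 2, 1; 0, -1, 0; 1, 2, 0]
  | 2 => !![0, 1, 2; 1, 0, 2; 0, 0, -1]

/-- The three half-turns, as real matrices. -/
noncomputable def Hr (b : Fin 3) : Matrix (Fin 3) (Fin 3) ℝ := (Hm b).map (Int.cast : ℤ → ℝ)

lemma Hm_sq (b : Fin 3) : Hm b * Hm b = 1 := by
  fin_cases b <;> decide

lemma Hr_sq (b : Fin 3) : Hr b * Hr b = 1 := by
  have h := congrArg (fun A : Matrix (Fin 3) (Fin 3) ℤ => A.map (Int.castRingHom ℝ)) (Hm_sq b)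
  simp only [Matrix.map_mul] at h
  rw [Matrix.map_one _ (map_zero _) (map_one _)] at h
  exact h

/-- The three half-turns, as units. -/
noncomputable def Hu (b : Fin 3) : (Matrix (Fin 3) (Fin 3) ℝ)ˣ := ⟨Hr b, Hr b, Hr_sq b, Hr_sq b⟩

lemma Hu_mul (b : Fin 3) : Hu b * Hu b = 1 := by
  ext1
  exact Hr_sq b

lemma liftable : M.IsLiftable Hu := by
  intro i j
  by_cases h : i = j
  · subst h
    show (Hu i * Hu i) ^ (if i = i then 1 else 0) = 1
    rw [if_pos rfl, pow_one, Hu_mul]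
  · show (Hu i * Hu j) ^ (if i = j then 1 else 0) = 1
    rw [if_neg h, pow_zero]

/-- The Coxeter system. -/
def cs : CoxeterSystem M M.Group := M.toCoxeterSystem

/-- The representation. -/
noncomputable def rho : M.Group →* (Matrix (Fin 3) (Fin 3) ℝ)ˣ := cs.lift ⟨Hu, liftable⟩

lemma rho_simple (b : Fin 3) : rho (cs.simple b) = Hu b := cs.lift_apply_simple liftable b

/-- The sum of coordinates. -/
def s (x : Fin 3 → ℝ) : ℝ := x 0 + x 1 + x 2

/-- The quadratic form. -/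
def q (x : Fin 3 → ℝ) : ℝ := x 0 * x 1 + x 1 * x 2 + x 2 * x 0

/-- The cone. -/
def C : Set (Fin 3 → ℝ) := {x | 0 < s x ∧ 0 < q x}

set_option linter.unusedTactic false in
set_option linter.unreachableTactic false in
lemma Hr_mulVec (b : Fin 3) (x : Fin 3 → ℝ) :
    Hr b *ᵥ x = match b with
      | 0 => ![-x 0, 2 * x 0 + x 2, 2 * x 0 + x 1]
      | 1 => ![2 * x 1 + x 2, -x 1, x 0 + 2 * x 1]
      | 2 => ![x 1 + 2 * x 2, x 0 + 2 * x 2, -x 2] := by
  fin_cases b <;>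
  · funext i
    fin_cases i <;> simp [Hr, Hm, Matrix.mulVec, dotProduct, Fin.sum_univ_three] <;> ring

lemma q_Hr (b : Fin 3) (x : Fin 3 → ℝ) : q (Hr b *ᵥ x) = q x := by
  rw [Hr_mulVec]
  fin_cases b <;> simp [q] <;> ring

lemma s_Hr (b : Fin 3) (x : Fin 3 → ℝ) : s (Hr b *ᵥ x) = s x + 2 * x b := by
  rw [Hr_mulVec]
  fin_cases b <;> simp [s] <;> ring

lemma sq_lt_of_mem {x : Fin 3 → ℝ} (hx : x ∈ C) : x 0 ^ 2 + x 1 ^ 2 + x 2 ^ 2 < s x ^ 2 := by
  have h := hx.2
  simp only [q] at h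
  simp only [s]
  nlinarith

lemma abs_lt_of_mem {x : Fin 3 → ℝ} (hx : x ∈ C) (i : Fin 3) : |x i| < s x := by
  have h := sq_lt_of_mem hx
  apply abs_lt_of_sq_lt_sq _ hx.1.le
  fin_cases i <;> simp <;> nlinarith [sq_nonneg (x 0), sq_nonneg (x 1), sq_nonneg (x 2)]

lemma Hr_mem (b : Fin 3) {x : Fin 3 → ℝ} (hx : x ∈ C) : Hr b *ᵥ x ∈ C := by
  refine ⟨?_, by rw [q_Hr]; exact hx.2⟩
  rw [s_Hr]
  have h0 := hx.1
  have h := hx.2
  simp only [q] at h
  simp only [s] at *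
  fin_cases b <;> simp <;> nlinarith [sq_nonneg (x 0 + x 1), sq_nonneg (x 0 + x 2), sq_nonneg (x 1 + x 2), sq_nonneg (x 0 - x 1), sq_nonneg (x 0 - x 2), sq_nonneg (x 1 - x 2)]

lemma pos_of_neg {x : Fin 3 → ℝ} (hx : x ∈ C) {a : Fin 3} (ha : x a < 0) :
    ∀ j, j ≠ a → 0 < x j := by
  intro j hj
  by_contra hcon
  have hj' : x j ≤ 0 := not_lt.mp hcon
  obtain ⟨h0, h⟩ := hx
  simp only [q] at h
  simp only [s] at h0
  fin_cases a <;> fin_cases j <;> simp at ha hj hj' <;>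
    nlinarith [mul_nonneg_of_nonpos_of_nonpos ha.le hj', sq_nonneg (x 0), sq_nonneg (x 1), sq_nonneg (x 2)]


lemma rho_mul_mulVec (v w : M.Group) (x : Fin 3 → ℝ) :
    (rho (v * w)).val *ᵥ x = (rho v).val *ᵥ ((rho w).val *ᵥ x) := by
  rw [map_mul, Units.val_mul, Matrix.mulVec_mulVec]

lemma rho_simple_val (b : Fin 3) : (rho (cs.simple b)).val = Hr b := by
  rw [rho_simple]; rfl

lemma rho_mem (w : M.Group) {x : Fin 3 → ℝ} (hx : x ∈ C) : (rho w).val *ᵥ x ∈ C := by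
  revert x
  refine cs.simple_induction_left (p := fun w => ∀ {x : Fin 3 → ℝ}, x ∈ C →
    (rho w).val *ᵥ x ∈ C) w ?_ ?_
  · intro x hx
    simpa using hx
  · intro w i ih x hx
    rw [rho_mul_mulVec, rho_simple_val]
    exact Hr_mem i (ih hx)

/-- Every element of the group is given by a word without repetitions. -/
lemma exists_word (w : M.Group) : ∃ ω : List (Fin 3), ω.IsChain (· ≠ ·) ∧ cs.wordProd ω = w := by
  refine cs.simple_induction_left (p := fun w => ∃ ω : List (Fin 3), ω.IsChain (· ≠ ·) ∧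
    cs.wordProd ω = w) w ⟨[], List.isChain_nil, by simp⟩ ?_
  rintro w i ⟨ω, h1, h2⟩
  cases ω with
  | nil =>
    refine ⟨[i], List.isChain_singleton _, ?_⟩
    rw [← h2]
    simp
  | cons j t =>
    by_cases hij : i = j
    · subst hij
      refine ⟨t, h1.tail, ?_⟩
      rw [← h2, cs.wordProd_cons, ← mul_assoc, cs.simple_mul_simple_self, one_mul]
    · refine ⟨i :: j :: t, ?_, ?_⟩
      · rw [List.isChain_cons_cons]
        exact ⟨hij, h1⟩
      · rw [cs.wordProd_cons, h2]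

lemma ping (ω : List (Fin 3)) : ∀ b, (b :: ω).IsChain (· ≠ ·) →
    ((rho (cs.wordProd (b :: ω))).val *ᵥ (fun _ => (1 : ℝ))) b < 0 := by
  induction ω with
  | nil =>
    intro b _
    rw [cs.wordProd_singleton, rho_simple_val, Hr_mulVec]
    fin_cases b <;> simp
  | cons a t ih =>
    intro b h
    rw [List.isChain_cons_cons] at h
    have h1 := ih a h.2
    have hp : (fun _ => (1 : ℝ)) ∈ C := by
      constructor
      · simp only [s]; norm_num
      · simp only [q]; norm_num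
    have h2 := rho_mem (cs.wordProd (a :: t)) hp
    have h3 := pos_of_neg h2 h1 b h.1
    rw [cs.wordProd_cons, rho_mul_mulVec, rho_simple_val, Hr_mulVec]
    fin_cases b <;> simpa using h3

lemma rho_injective : Function.Injective rho := by
  rw [injective_iff_map_eq_one]
  intro w hw
  obtain ⟨ω, h1, h2⟩ := exists_word w
  cases ω with
  | nil => rw [← h2]; simp
  | cons b t =>
    exfalso
    have h := ping t b h1
    rw [h2, hw] at h
    simp at h
    linarith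

lemma Hr_det (b : Fin 3) : (Hr b).det = 1 := by
  have h : (Hm b).det = 1 := by
    fin_cases b <;> decide
  have h2 := (Int.castRingHom ℝ).map_det (Hm b)
  rw [h] at h2
  simp at h2
  exact h2.symm

lemma rho_det (w : M.Group) : (rho w).val.det = 1 := by
  refine cs.simple_induction_left (p := fun w => (rho w).val.det = 1) w (by simp) ?_
  intro w i ih
  rw [map_mul, Units.val_mul, Matrix.det_mul, ih, rho_simple_val, Hr_det, mul_one]

lemma rho_int (w : M.Group) : ∃ g : Matrix (Fin 3) (Fin 3) ℤ, (rho w).val = g.map (Int.cast : ℤ → ℝ) := by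
  refine cs.simple_induction_left (p := fun w => ∃ g : Matrix (Fin 3) (Fin 3) ℤ,
    (rho w).val = g.map (Int.cast : ℤ → ℝ)) w ⟨1, ?_⟩ ?_
  · rw [map_one, Units.val_one]
    exact (Matrix.map_one _ Int.cast_zero Int.cast_one).symm
  · rintro w i ⟨g, hg⟩
    refine ⟨Hm i * g, ?_⟩
    rw [map_mul, Units.val_mul, hg, rho_simple_val]
    exact (Matrix.map_mul (f := Int.castRingHom ℝ) (L := Hm i) (M := g)).symm

/-- The closed cone. -/
lemma closure_subset : closure C ⊆ {x | 0 ≤ s x ∧ 0 ≤ q x} := by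
  apply closure_minimal
  · intro x hx
    exact ⟨hx.1.le, hx.2.le⟩
  · have h1 : Continuous s := by unfold s; fun_prop
    have h2 : Continuous q := by unfold q; fun_prop
    exact (isClosed_le continuous_const h1).inter (isClosed_le continuous_const h2)

lemma isOpen_C : IsOpen C := by
  have h1 : Continuous s := by unfold s; fun_prop
  have h2 : Continuous q := by unfold q; fun_prop
  exact (isOpen_lt continuous_const h1).inter (isOpen_lt continuous_const h2)

lemma s_add (x y : Fin 3 → ℝ) : s (x + y) = s x + s y := by simp [s]; ring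
lemma s_sub (x y : Fin 3 → ℝ) : s (x - y) = s x - s y := by simp [s]; ring
lemma s_smul (a : ℝ) (x : Fin 3 → ℝ) : s (a • x) = a * s x := by simp [s]; ring

lemma smul_mem {x : Fin 3 → ℝ} (hx : x ∈ C) {t : ℝ} (ht : 0 < t) : t • x ∈ C := by
  constructor
  · rw [s_smul]; exact mul_pos ht hx.1
  · have : q (t • x) = t ^ 2 * q x := by simp [q]; ring
    rw [this]
    exact mul_pos (by positivity) hx.2

lemma add_mem {x y : Fin 3 → ℝ} (hx : x ∈ C) (hy : y ∈ C) : x + y ∈ C := by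
  constructor
  · rw [s_add]; exact add_pos hx.1 hy.1
  · have h1 := sq_lt_of_mem hx
    have h2 := sq_lt_of_mem hy
    have h3 : (x 0 * y 0 + x 1 * y 1 + x 2 * y 2) ^ 2 ≤
        (x 0 ^ 2 + x 1 ^ 2 + x 2 ^ 2) * (y 0 ^ 2 + y 1 ^ 2 + y 2 ^ 2) := by
      nlinarith [sq_nonneg (x 0 * y 1 - x 1 * y 0), sq_nonneg (x 0 * y 2 - x 2 * y 0),
        sq_nonneg (x 1 * y 2 - x 2 * y 1)]
    have h4 : (x 0 ^ 2 + x 1 ^ 2 + x 2 ^ 2) * (y 0 ^ 2 + y 1 ^ 2 + y 2 ^ 2) <
        (s x * s y) ^ 2 := by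
      rw [mul_pow]
      have : 0 ≤ y 0 ^ 2 + y 1 ^ 2 + y 2 ^ 2 := by positivity
      have : 0 ≤ x 0 ^ 2 + x 1 ^ 2 + x 2 ^ 2 := by positivity
      have h5 : 0 < s x ^ 2 := by have := hx.1; positivity
      have h6 : 0 < s y ^ 2 := by have := hy.1; positivity
      nlinarith
    have h5 : x 0 * y 0 + x 1 * y 1 + x 2 * y 2 < s x * s y := by
      apply lt_of_pow_lt_pow_left₀ 2 (mul_pos hx.1 hy.1).le (lt_of_le_of_lt h3 h4)
    have h6 := hx.2
    have h7 := hy.2
    simp only [q, s] at *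
    simp only [Pi.add_apply]
    nlinarith

lemma convex_C : Convex ℝ C := by
  intro x hx y hy a b ha hb hab
  rcases eq_or_lt_of_le ha with h | h
  · have hb1 : b = 1 := by linarith
    rw [← h, hb1]
    simpa using hy
  · rcases eq_or_lt_of_le hb with h' | h'
    · have ha1 : a = 1 := by linarith
      rw [← h', ha1]
      simpa using hx
    · exact add_mem (smul_mem hx h) (smul_mem hy h')

lemma one_mem : (fun _ => (1 : ℝ)) ∈ C := by
  constructor
  · simp only [s]; norm_num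
  · simp only [q]; norm_num

lemma no_line (x v : Fin 3 → ℝ) (hv : v ≠ 0) : ∃ t : ℝ, x + t • v ∉ closure C := by
  by_contra hcon
  push Not at hcon
  have h1 : ∀ t : ℝ, 0 ≤ s x + t * s v := by
    intro t
    have := (closure_subset (hcon t)).1
    rwa [s_add, s_smul] at this
  have h2 : s v = 0 := by
    by_contra hne
    have := h1 (-(s x + 1) / s v)
    rw [div_mul_cancel₀ _ hne] at this
    linarith
  apply hv
  funext i
  by_contra hne
  change v i ≠ 0 at hne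
  have h3 : ∀ t : ℝ, (x i + t * v i) ^ 2 ≤ s x ^ 2 := by
    intro t
    have h4 := (closure_subset (hcon t)).2
    have h5 : s (x + t • v) = s x := by rw [s_add, s_smul, h2]; ring
    have h6 : (s (x + t • v)) ^ 2 = (x 0 + t * v 0) ^ 2 + (x 1 + t * v 1) ^ 2 +
        (x 2 + t * v 2) ^ 2 + 2 * q (x + t • v) := by
      simp [s, q]; ring
    rw [h5] at h6
    rw [h6]
    fin_cases i <;> simp <;> nlinarith [sq_nonneg (x 0 + t * v 0), sq_nonneg (x 1 + t * v 1),
      sq_nonneg (x 2 + t * v 2)]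
  have h7 := h3 ((|s x| + 1 - x i) / v i)
  rw [div_mul_cancel₀ _ hne] at h7
  have h8 : x i + (|s x| + 1 - x i) = |s x| + 1 := by ring
  rw [h8, ← sq_abs (s x)] at h7
  nlinarith [abs_nonneg (s x)]


/-- The fundamental domain. -/
def F : Set (Fin 3 → ℝ) := {x | x ∈ C ∧ ∀ i, 0 ≤ x i}

lemma rho_sub (w : M.Group) (x y : Fin 3 → ℝ) :
    (rho w).val *ᵥ (x - y) = (rho w).val *ᵥ x - (rho w).val *ᵥ y := Matrix.mulVec_sub _ _ _

lemma exists_delta {x : Fin 3 → ℝ} (hx : x ∈ C) (y : Fin 3 → ℝ) :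
    ∃ δ : ℝ, 0 < δ ∧ ∀ t : ℝ, 0 < t → t ≤ δ → x - t • y ∈ C := by
  have hcont : Continuous (fun t : ℝ => x - t • y) := by fun_prop
  have h0 : x - (0 : ℝ) • y ∈ C := by simpa using hx
  have hopen := isOpen_C.preimage hcont
  obtain ⟨ε, hε, hball⟩ := Metric.isOpen_iff.mp hopen 0 h0
  refine ⟨ε / 2, by positivity, fun t ht ht2 => ?_⟩
  apply hball
  rw [Metric.mem_ball, Real.dist_eq, sub_zero, abs_of_pos ht]
  linarith

lemma bound_orbit {x : Fin 3 → ℝ} (hx : x ∈ C) {y : Fin 3 → ℝ} (hy : y ∈ C) :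
    ∃ K : ℝ, ∀ w : M.Group, s ((rho w).val *ᵥ x) ≤ s x → ∀ i, |((rho w).val *ᵥ y) i| ≤ K := by
  obtain ⟨δ, hδ, h⟩ := exists_delta hx y
  refine ⟨s x / δ, fun w hw i => ?_⟩
  have h1 := rho_mem w (h δ hδ le_rfl)
  rw [rho_sub, Matrix.mulVec_smul] at h1
  have h2 := h1.1
  rw [s_sub, s_smul] at h2
  have h3 := abs_lt_of_mem (rho_mem w hy) i
  rw [le_div_iff₀ hδ]
  nlinarith

lemma finite_set {x : Fin 3 → ℝ} (hx : x ∈ C) :
    {g : Matrix (Fin 3) (Fin 3) ℤ | ∃ w : M.Group, (rho w).val = g.map (Int.cast : ℤ → ℝ) ∧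
      s ((rho w).val *ᵥ x) ≤ s x}.Finite := by
  have hy : ∀ j : Fin 3, (fun i => (1 : ℝ) + if i = j then 1 else 0) ∈ C := by
    intro j
    constructor
    · simp only [s]; fin_cases j <;> simp <;> norm_num
    · simp only [q]; fin_cases j <;> simp <;> norm_num
  obtain ⟨K, hK⟩ := bound_orbit hx one_mem
  choose K' hK' using fun j => bound_orbit hx (hy j)
  obtain ⟨N, hN⟩ : ∃ N : ℤ, ∀ j, K + K' j ≤ N := by
    refine ⟨max (max ⌈K + K' 0⌉ ⌈K + K' 1⌉) ⌈K + K' 2⌉, fun j => ?_⟩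
    have h0 := Int.le_ceil (K + K' 0)
    have h1 := Int.le_ceil (K + K' 1)
    have h2 := Int.le_ceil (K + K' 2)
    push_cast
    fin_cases j
    · exact le_trans h0 (le_trans (le_max_left _ _) (le_max_left _ _))
    · exact le_trans h1 (le_trans (le_max_right _ _) (le_max_left _ _))
    · exact le_trans h2 (le_max_right _ _)
  refine Set.Finite.subset (Set.finite_Icc (fun _ _ => -N : Fin 3 → Fin 3 → ℤ) (fun _ _ => N)) ?_
  rintro g ⟨w, hw, hs⟩
  have key : ∀ i j, |g i j| ≤ N := by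
    intro i j
    have h1 := hK w hs i
    have h2 := hK' j w hs i
    have h3 : (g i j : ℝ) = ((rho w).val *ᵥ (fun i => (1 : ℝ) + if i = j then 1 else 0)) i -
        ((rho w).val *ᵥ (fun _ => (1 : ℝ))) i := by
      rw [← Pi.sub_apply, ← Matrix.mulVec_sub]
      have : ((fun i => (1 : ℝ) + if i = j then 1 else 0) - (fun _ => (1 : ℝ))) =
          (Pi.single j (1 : ℝ) : Fin 3 → ℝ) := by
        funext k
        simp [Pi.single_apply]
      rw [this, Matrix.mulVec_single, hw]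
      simp <;> rfl
    have h4 : |(g i j : ℝ)| ≤ N := by
      rw [h3]
      refine le_trans (abs_sub _ _) ?_
      have := hN j
      linarith
    exact_mod_cast h4
  constructor
  · intro i j
    exact (abs_le.mp (key i j)).1
  · intro i j
    exact (abs_le.mp (key i j)).2

lemma cover {x : Fin 3 → ℝ} (hx : x ∈ C) : ∃ w : M.Group, (rho w).val *ᵥ x ∈ F := by
  have hfin := finite_set hx
  have hne : {g : Matrix (Fin 3) (Fin 3) ℤ | ∃ w : M.Group,
      (rho w).val = g.map (Int.cast : ℤ → ℝ) ∧ s ((rho w).val *ᵥ x) ≤ s x}.Nonempty := by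
    obtain ⟨g, hg⟩ := rho_int 1
    exact ⟨g, 1, hg, by simp⟩
  obtain ⟨g, ⟨w, hw, hs⟩, hmin⟩ := Set.exists_min_image _
    (fun g : Matrix (Fin 3) (Fin 3) ℤ => s (g.map (Int.cast : ℤ → ℝ) *ᵥ x)) hfin hne
  refine ⟨w, rho_mem w hx, fun i => ?_⟩
  by_contra hcon
  push Not at hcon
  obtain ⟨g', hg'⟩ := rho_int (cs.simple i * w)
  have h1 : s ((rho (cs.simple i * w)).val *ᵥ x) = s ((rho w).val *ᵥ x) +
      2 * ((rho w).val *ᵥ x) i := by
    rw [rho_mul_mulVec, rho_simple_val, s_Hr]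
  have h2 := hmin g' ⟨cs.simple i * w, hg', by rw [h1]; linarith⟩
  rw [← hg', ← hw, h1] at h2
  linarith


/-! ### The Hilbert metric -/

/-- The Hilbert metric of the cone. -/
noncomputable def d (x y : Fin 3 → ℝ) : ℝ :=
  (1 / 2) * Real.log (sInf {t : ℝ | t • y - x ∈ closure C} * sInf {t : ℝ | t • x - y ∈ closure C})

lemma nonneg_of_mem_set {x y : Fin 3 → ℝ} (hx : x ∈ C) (hy : y ∈ C) {t : ℝ}
    (ht : t • y - x ∈ closure C) : 0 ≤ t := by
  have h := (closure_subset ht).1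
  rw [s_sub, s_smul] at h
  by_contra hcon
  push Not at hcon
  nlinarith [hx.1, hy.1]

lemma d_le {x y : Fin 3 → ℝ} (hx : x ∈ C) (hy : y ∈ C) {t u : ℝ} (ht : t • y - x ∈ C)
    (hu : u • x - y ∈ C) {δ : ℝ} (hδ : 0 ≤ δ) (htu : t * u ≤ (1 + δ) ^ 2) : d x y ≤ δ := by
  have bd1 : BddBelow {t : ℝ | t • y - x ∈ closure C} := ⟨0, fun _ h => nonneg_of_mem_set hx hy h⟩
  have bd2 : BddBelow {t : ℝ | t • x - y ∈ closure C} := ⟨0, fun _ h => nonneg_of_mem_set hy hx h⟩
  have h1 : sInf {t : ℝ | t • y - x ∈ closure C} ≤ t := csInf_le bd1 (subset_closure ht)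
  have h2 : sInf {t : ℝ | t • x - y ∈ closure C} ≤ u := csInf_le bd2 (subset_closure hu)
  have h3 : 0 ≤ sInf {t : ℝ | t • y - x ∈ closure C} :=
    Real.sInf_nonneg (fun _ h => nonneg_of_mem_set hx hy h)
  have h4 : 0 ≤ sInf {t : ℝ | t • x - y ∈ closure C} :=
    Real.sInf_nonneg (fun _ h => nonneg_of_mem_set hy hx h)
  have h5 : sInf {t : ℝ | t • y - x ∈ closure C} * sInf {t : ℝ | t • x - y ∈ closure C} ≤
      (1 + δ) ^ 2 :=
    le_trans (mul_le_mul h1 h2 h4 (le_trans h3 h1)) htu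
  unfold d
  rcases eq_or_lt_of_le (mul_nonneg h3 h4) with h | h
  · rw [← h]
    simp
    exact hδ
  · have h6 := Real.log_le_log h h5
    rw [Real.log_pow] at h6
    have h7 := Real.log_le_sub_one_of_pos (show (0 : ℝ) < 1 + δ by linarith)
    push_cast at h6
    linarith

/-- The normalised vector in the coordinates of the cusp. -/
def N (k : Fin 3) (u v : ℝ) : Fin 3 → ℝ :=
  match k with
    | 0 => ![v ^ 2 - u * (1 - u), 1 - u, u]
    | 1 => ![u, v ^ 2 - u * (1 - u), 1 - u]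
    | 2 => ![1 - u, u, v ^ 2 - u * (1 - u)]

lemma s_N (k : Fin 3) (u v : ℝ) : s (N k u v) = v ^ 2 - u * (1 - u) + 1 := by
  fin_cases k <;> simp [s, N] <;> ring

lemma q_N (k : Fin 3) (u v : ℝ) : q (N k u v) = v ^ 2 := by
  fin_cases k <;> simp [q, N] <;> ring

lemma N_mem (k : Fin 3) {u v : ℝ} (hv : 0 < v) : N k u v ∈ C := by
  constructor
  · rw [s_N]; nlinarith [sq_nonneg (u - 1 / 2)]
  · rw [q_N]; positivity

/-- The main estimate. -/
lemma N_sub_mem (k : Fin 3) {u v u' v' δ : ℝ} (hδ : 0 < δ) (hδ1 : δ ≤ 1) (hv' : 0 < v')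
    (hv : 0 < v)
    (h1 : |u' - u| ≤ δ * v') (h2 : |v' - v| ≤ δ * v') :
    (1 + 5 * δ) • N k u' v' - N k u v ∈ C := by
  have hq : q ((1 + 5 * δ) • N k u' v' - N k u v) =
      (5 * δ) ^ 2 * v' ^ 2 + 5 * δ * (v' ^ 2 - v ^ 2) - (1 + 5 * δ) * (u' - u) ^ 2 := by
    fin_cases k <;> simp [q, N] <;> ring
  have hs : s ((1 + 5 * δ) • N k u' v' - N k u v) =
      (1 + 5 * δ) * (v' ^ 2 - u' * (1 - u') + 1) - (v ^ 2 - u * (1 - u) + 1) := by
    rw [s_sub, s_smul, s_N, s_N]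
  have h3 : (u' - u) ^ 2 ≤ δ ^ 2 * v' ^ 2 := by
    have := sq_le_sq' (abs_le.mp h1).1 (abs_le.mp h1).2
    rwa [mul_pow] at this
  have h4 : v ^ 2 - v' ^ 2 ≤ 3 * δ * v' ^ 2 := by
    have h5 := (abs_le.mp h2).1
    have h6 : v ≤ (1 + δ) * v' := by linarith
    have h7 : v ^ 2 ≤ ((1 + δ) * v') ^ 2 := by
      apply pow_le_pow_left₀ hv.le h6
    have h8 : ((1 + δ) * v') ^ 2 = v' ^ 2 + (2 * δ + δ ^ 2) * v' ^ 2 := by ring
    have h9 : (2 * δ + δ ^ 2) * v' ^ 2 ≤ 3 * δ * v' ^ 2 := by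
      apply mul_le_mul_of_nonneg_right _ (sq_nonneg _)
      nlinarith
    linarith
  have hqpos : 0 < q ((1 + 5 * δ) • N k u' v' - N k u v) := by
    rw [hq]
    have h10 : 0 < δ ^ 2 * v' ^ 2 := by positivity
    have h11 : (1 + 5 * δ) * (u' - u) ^ 2 ≤ (1 + 5 * δ) * (δ ^ 2 * v' ^ 2) := by
      apply mul_le_mul_of_nonneg_left h3; positivity
    have h12 : 5 * δ * (v' ^ 2 - v ^ 2) ≥ -(5 * δ * (3 * δ * v' ^ 2)) := by
      have : 5 * δ * (v ^ 2 - v' ^ 2) ≤ 5 * δ * (3 * δ * v' ^ 2) := by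
        apply mul_le_mul_of_nonneg_left h4; positivity
      linarith
    have h13 : 5 * δ * (δ ^ 2 * v' ^ 2) ≤ 5 * (δ ^ 2 * v' ^ 2) := by
      apply mul_le_mul_of_nonneg_right _ h10.le
      linarith
    nlinarith
  refine ⟨?_, hqpos⟩
  -- the sum is positive because the last two coordinates have a positive sum
  set z := (1 + 5 * δ) • N k u' v' - N k u v with hz
  have hc : z (k + 1) + z (k + 2) = 5 * δ := by
    rw [hz]
    fin_cases k <;> simp [N] <;> ring
  have hqz : q z = z k * (z (k + 1) + z (k + 2)) + z (k + 1) * z (k + 2) := by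
    fin_cases k <;> simp [q] <;> ring
  have hsz : s z = z k + (z (k + 1) + z (k + 2)) := by
    fin_cases k <;> simp [s] <;> ring
  rw [hsz, hc]
  rw [hqz, hc] at hqpos
  have h14 : z (k + 1) * z (k + 2) ≤ (5 * δ) ^ 2 / 4 := by
    rw [← hc]
    nlinarith [sq_nonneg (z (k + 1) - z (k + 2))]
  have h15 : 0 < 5 * δ := by linarith
  by_contra hcon
  push Not at hcon
  nlinarith


/-- A cell near a cusp. -/
def cell (m : ℝ) (k : Fin 3) (j p r : ℕ) : Set (Fin 3 → ℝ) :=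
  {x | ∃ c : ℝ, 0 < c ∧ ∃ u v : ℝ, p / m ≤ u ∧ u ≤ (p + 1) / m ∧
    1 / 2 + j + r / m ≤ v ∧ v ≤ 1 / 2 + j + (r + 1) / m ∧ x = c • N k u v}

lemma v_pos {m : ℝ} (hm : 2 ≤ m) {j r : ℕ} {v : ℝ} (h : 1 / 2 + j + r / m ≤ v) :
    1 / 2 + (j : ℝ) ≤ v := by
  have : (0 : ℝ) ≤ r / m := by positivity
  linarith

lemma cell_subset {m : ℝ} (hm : 2 ≤ m) (k : Fin 3) (j p r : ℕ) : cell m k j p r ⊆ C := by
  rintro x ⟨c, hc, u, v, h1, h2, h3, h4, rfl⟩
  have := v_pos hm h3
  have hj : (0 : ℝ) ≤ j := Nat.cast_nonneg j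
  exact smul_mem (N_mem k (by linarith)) hc

lemma cell_d {m : ℝ} (hm : 2 ≤ m) (k : Fin 3) (j p r : ℕ) {x y : Fin 3 → ℝ}
    (hx : x ∈ cell m k j p r) (hy : y ∈ cell m k j p r) :
    d x y ≤ 5 * (1 / (m * (1 / 2 + j))) := by
  have hxC := cell_subset hm k j p r hx
  have hyC := cell_subset hm k j p r hy
  obtain ⟨c, hc, u, v, h1, h2, h3, h4, rfl⟩ := hx
  obtain ⟨c', hc', u', v', h1', h2', h3', h4', rfl⟩ := hy
  have hj : (0 : ℝ) ≤ j := Nat.cast_nonneg j
  have hv := v_pos hm h3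
  have hv' := v_pos hm h3'
  have hm0 : 0 < m := by linarith
  set δ := 1 / (m * (1 / 2 + (j : ℝ))) with hδdef
  have hδ : 0 < δ := by positivity
  have hδ1 : δ ≤ 1 := by
    rw [hδdef, div_le_one (by positivity)]
    nlinarith
  have key : ∀ w : ℝ, 1 / 2 + (j : ℝ) ≤ w → 1 / m ≤ δ * w := by
    intro w hw
    have : δ * (1 / 2 + (j : ℝ)) = 1 / m := by
      rw [hδdef]; field_simp
    rw [← this]
    exact mul_le_mul_of_nonneg_left hw hδ.le
  have e1 : (p + 1) / m - p / m = 1 / m := by ring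
  have e2 : (r + 1) / m - r / m = 1 / m := by ring
  have k1 := key v hv
  have k2 := key v' hv'
  have m1 := N_sub_mem k hδ hδ1 (by linarith : 0 < v') (by linarith : 0 < v)
    (u := u) (u' := u')
    (by rw [abs_le]; constructor <;> linarith) (by rw [abs_le]; constructor <;> linarith)
  have m2 := N_sub_mem k hδ hδ1 (by linarith : 0 < v) (by linarith : 0 < v')
    (u := u') (u' := u)
    (by rw [abs_le]; constructor <;> linarith) (by rw [abs_le]; constructor <;> linarith)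
  apply d_le hxC hyC (t := c / c' * (1 + 5 * δ)) (u := c' / c * (1 + 5 * δ)) _ _ (by positivity)
  · apply le_of_eq
    field_simp
  · have : (c / c' * (1 + 5 * δ)) • c' • N k u' v' - c • N k u v =
        c • ((1 + 5 * δ) • N k u' v' - N k u v) := by
      rw [smul_sub, smul_smul, smul_smul]
      congr 2
      field_simp
    rw [this]
    exact smul_mem m1 hc
  · have : (c' / c * (1 + 5 * δ)) • c • N k u v - c' • N k u' v' =
        c' • ((1 + 5 * δ) • N k u v - N k u' v') := by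
      rw [smul_sub, smul_smul, smul_smul]
      congr 2
      field_simp
    rw [this]
    exact smul_mem m2 hc'

lemma N_eq (k : Fin 3) (u v : ℝ) (x : Fin 3 → ℝ) (c : ℝ) (h1 : v ^ 2 - u * (1 - u) = x k / c)
    (h2 : 1 - u = x (k + 1) / c) (h3 : u = x (k + 2) / c) : N k u v = fun i => x i / c := by
  fin_cases k <;> funext i <;> fin_cases i <;> simp only [N] <;>
    first | exact h1 | exact h2 | exact h3

lemma F_cover {m : ℕ} (hm : 2 ≤ m) {x : Fin 3 → ℝ} (hx : x ∈ F) :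
    ∃ (k : Fin 3) (j p r : ℕ), p < m + 1 ∧ r < m ∧ x ∈ cell m k j p r := by
  obtain ⟨hxC, hx0⟩ := hx
  obtain ⟨k, hk⟩ := Finite.exists_max x
  have hq : q x = x k * (x (k + 1) + x (k + 2)) + x (k + 1) * x (k + 2) := by
    fin_cases k <;> simp [q] <;> ring
  have hqpos := hxC.2
  set c := x (k + 1) + x (k + 2) with hc
  have hc0 : 0 < c := by
    by_contra hcon
    have h1 : x (k + 1) = 0 := by have := hx0 (k + 1); have := hx0 (k + 2); linarith
    have h2 : x (k + 2) = 0 := by have := hx0 (k + 1); have := hx0 (k + 2); linarith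
    rw [hq, h1, hc, h1, h2] at hqpos
    simp at hqpos
  have hm0 : (0 : ℝ) < m := by
    have : 0 < m := by omega
    exact_mod_cast this
  set u := x (k + 2) / c with hu
  set v := Real.sqrt (q x) / c with hv
  have hu0 : 0 ≤ u := div_nonneg (hx0 _) hc0.le
  have hu1 : u ≤ 1 := by
    rw [hu, div_le_one hc0, hc]
    have := hx0 (k + 1)
    linarith
  have hv2 : v ^ 2 = q x / c ^ 2 := by
    rw [hv, div_pow, Real.sq_sqrt hqpos.le]
  have hvhalf : 1 / 2 ≤ v := by
    rw [hv, le_div_iff₀ hc0]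
    apply Real.le_sqrt_of_sq_le
    have h1 := hk (k + 1)
    have h2 := hk (k + 2)
    have h3 : c ≤ 2 * x k := by rw [hc]; linarith
    rw [hq]
    have h4 := mul_nonneg (hx0 (k + 1)) (hx0 (k + 2))
    nlinarith
  have hxN : x = c • N k u v := by
    have e1 : v ^ 2 - u * (1 - u) = x k / c := by
      rw [hv2, hq, hu]
      have : x (k + 1) = c - x (k + 2) := by rw [hc]; ring
      rw [this]
      field_simp
      ring
    have e2 : 1 - u = x (k + 1) / c := by
      rw [hu, eq_div_iff hc0.ne', sub_mul, div_mul_cancel₀ _ hc0.ne', hc]; ring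
    have e3 : u = x (k + 2) / c := rfl
    rw [N_eq k u v x c e1 e2 e3]
    funext i
    simp only [Pi.smul_apply, smul_eq_mul]
    field_simp
  refine ⟨k, ⌊v - 1 / 2⌋₊, ⌊u * m⌋₊, ⌊(v - 1 / 2 - ⌊v - 1 / 2⌋₊) * m⌋₊, ?_, ?_, c, hc0, u, v,
    ?_, ?_, ?_, ?_, hxN⟩
  · rw [Nat.lt_succ_iff]
    apply Nat.floor_le_of_le
    nlinarith
  · rw [Nat.floor_lt' (by omega)]
    have := Nat.lt_floor_add_one (v - 1 / 2)
    nlinarith
  · rw [div_le_iff₀ hm0]
    exact Nat.floor_le (by positivity)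
  · rw [le_div_iff₀ hm0]
    exact (Nat.lt_floor_add_one _).le
  · have h1 := Nat.floor_le (show 0 ≤ v - 1 / 2 by linarith)
    have h2 : ((⌊(v - 1 / 2 - ⌊v - 1 / 2⌋₊) * m⌋₊ : ℕ) : ℝ) / m ≤ v - 1 / 2 - ⌊v - 1 / 2⌋₊ := by
      rw [div_le_iff₀ hm0]
      apply Nat.floor_le
      apply mul_nonneg _ hm0.le
      linarith
    linarith
  · have h2 : v - 1 / 2 - ⌊v - 1 / 2⌋₊ ≤
        (((⌊(v - 1 / 2 - ⌊v - 1 / 2⌋₊) * m⌋₊ : ℕ) : ℝ) + 1) / m := by
      rw [le_div_iff₀ hm0]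
      exact (Nat.lt_floor_add_one _).le
    linarith


/-- The diameter of a set. -/
noncomputable def diam (U : Set (Fin 3 → ℝ)) : ENNReal := ⨆ x ∈ U, ⨆ y ∈ U, ENNReal.ofReal (d x y)

lemma diam_cell {m : ℝ} (hm : 2 ≤ m) (k : Fin 3) (j p r : ℕ) :
    diam (cell m k j p r) ≤ ENNReal.ofReal (5 * (1 / (m * (1 / 2 + j)))) := by
  unfold diam
  refine iSup₂_le fun x hx => iSup₂_le fun y hy => ?_
  exact ENNReal.ofReal_le_ofReal (cell_d hm k j p r hx hy)

/-- The two-dimensional Hausdorff measure of the Hilbert metric. -/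
noncomputable def H (F : Set (Fin 3 → ℝ)) : ENNReal :=
  ⨆ (r : ℝ) (_ : 0 < r), ⨅ (U : ℕ → Set (Fin 3 → ℝ))
        (_ : F ⊆ ⋃ i, U i) (_ : ∀ i, U i ⊆ C ∧ diam (U i) ≤ ENNReal.ofReal r),
        ∑' i, diam (U i) ^ 2

lemma summable_aux : Summable (fun j : ℕ => 150 * (1 / (1 / 2 + (j : ℝ))) ^ 2) := by
  apply Summable.mul_left
  have h := (Real.summable_one_div_nat_pow (p := 2)).mpr (by norm_num)
  have h2 := (summable_nat_add_iff 1).mpr h
  refine Summable.of_nonneg_of_le (fun j => by positivity) (fun j => ?_) (h2.mul_left 4)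
  have hj : (0 : ℝ) ≤ j := Nat.cast_nonneg j
  push_cast
  rw [div_pow, one_pow, mul_one_div, div_le_div_iff₀ (by positivity) (by positivity)]
  nlinarith

lemma H_F_lt : H F < ⊤ := by
  set K : ENNReal := ENNReal.ofReal (∑' j : ℕ, 150 * (1 / (1 / 2 + (j : ℝ))) ^ 2) with hK
  refine lt_of_le_of_lt ?_ (show K < ⊤ from ENNReal.ofReal_lt_top)
  unfold H
  refine iSup₂_le fun r hr => ?_
  obtain ⟨n, hn⟩ := exists_nat_ge (10 / r)
  -- the index type
  set m : ℕ := n + 2 with hm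
  have hm2 : 2 ≤ m := by omega
  have hm2' : (2 : ℝ) ≤ (m : ℝ) := by exact_mod_cast hm2
  have hmr : 10 / (m : ℝ) ≤ r := by
    rw [div_le_iff₀ (by positivity)]
    rw [div_le_iff₀ hr] at hn
    have : (n : ℝ) ≤ m := by exact_mod_cast (by omega : n ≤ m)
    nlinarith
  let ι := Fin 3 × ℕ × Fin (m + 1) × Fin m
  have : Nonempty (Fin m) := ⟨⟨0, by omega⟩⟩
  have : Infinite ι := inferInstance
  letI : Denumerable ι := Denumerable.ofEncodableOfInfinite ι
  let e : ι ≃ ℕ := Denumerable.eqv ι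
  let cl : ι → Set (Fin 3 → ℝ) := fun a => cell m a.1 a.2.1 a.2.2.1 a.2.2.2
  refine iInf_le_of_le (fun i => cl (e.symm i)) (iInf_le_of_le ?_ (iInf_le_of_le ?_ ?_))
  · intro x hx
    obtain ⟨k, j, p, q, hp, hq, hx⟩ := F_cover hm2 hx
    rw [Set.mem_iUnion]
    refine ⟨e (k, j, ⟨p, hp⟩, ⟨q, hq⟩), ?_⟩
    simp only [Equiv.symm_apply_apply]
    exact hx
  · intro i
    refine ⟨cell_subset hm2' _ _ _ _, ?_⟩
    refine le_trans (diam_cell hm2' _ _ _ _) (ENNReal.ofReal_le_ofReal ?_)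
    refine le_trans ?_ hmr
    have hj : (0 : ℝ) ≤ ((e.symm i).2.1 : ℝ) := Nat.cast_nonneg _
    rw [mul_one_div, div_le_div_iff₀ (by positivity) (by positivity)]
    nlinarith
  · have h1 : ∑' i, diam (cl (e.symm i)) ^ 2 = ∑' a : ι, diam (cl a) ^ 2 :=
      e.symm.tsum_eq (fun a => diam (cl a) ^ 2)
    rw [h1]
    have h2 : ∀ a : ι, diam (cl a) ^ 2 ≤
        ENNReal.ofReal ((5 * (1 / (m * (1 / 2 + (a.2.1 : ℝ))))) ^ 2) := by
      intro a
      rw [ENNReal.ofReal_pow (by positivity)]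
      gcongr
      exact diam_cell hm2' _ _ _ _
    refine le_trans (ENNReal.tsum_le_tsum h2) ?_
    have h3 : ∑' a : ι, ENNReal.ofReal ((5 * (1 / (m * (1 / 2 + (a.2.1 : ℝ))))) ^ 2) =
        ∑' (k : Fin 3) (j : ℕ) (p : Fin (m + 1)) (r : Fin m),
          ENNReal.ofReal ((5 * (1 / (m * (1 / 2 + (j : ℝ))))) ^ 2) := by
      rw [ENNReal.tsum_prod']
      congr 1; funext k
      rw [ENNReal.tsum_prod']
      congr 1; funext j
      rw [ENNReal.tsum_prod']
    rw [h3]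
    simp only [tsum_fintype, Finset.sum_const, Finset.card_univ, Fintype.card_fin, nsmul_eq_mul]
    rw [← ENNReal.tsum_mul_left, hK, ENNReal.ofReal_tsum_of_nonneg (fun j => by positivity)
      summable_aux]
    refine ENNReal.tsum_le_tsum fun j => ?_
    rw [show ((3 : ℕ) : ENNReal) * (((m + 1 : ℕ) : ENNReal) * ((m : ENNReal) *
      ENNReal.ofReal ((5 * (1 / (m * (1 / 2 + (j : ℝ))))) ^ 2))) =
      ENNReal.ofReal (3 * ((m + 1 : ℕ) * (m * (5 * (1 / (m * (1 / 2 + (j : ℝ))))) ^ 2))) by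
        rw [ENNReal.ofReal_mul (by norm_num), ENNReal.ofReal_mul (by positivity),
          ENNReal.ofReal_mul (by positivity), ENNReal.ofReal_natCast, ENNReal.ofReal_natCast]
        norm_num]
    apply ENNReal.ofReal_le_ofReal
    have hj : (0 : ℝ) ≤ j := Nat.cast_nonneg j
    have hmpos : (0 : ℝ) < m := by linarith
    have : 3 * (((m + 1 : ℕ) : ℝ) * (m * (5 * (1 / (m * (1 / 2 + (j : ℝ))))) ^ 2)) =
        (75 * ((m + 1) / m)) * (1 / (1 / 2 + (j : ℝ))) ^ 2 := by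
      push_cast
      field_simp
      ring
    rw [this]
    apply mul_le_mul_of_nonneg_right _ (by positivity)
    have : ((m : ℝ) + 1) / m ≤ 2 := by
      rw [div_le_iff₀ hmpos]; linarith
    linarith

end Pool.Agent.W564.Cox
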